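import Mathlib

/-!
# The second derived set of a subset of a `T₀`-space is closed

For `A ⊆ X` the derived set is `A^d = {x : x ∈ closure (A \ {x})}`. In a `T₀`-space the derived set
of `A` need not be closed, but the second derived set `(A^d)^d` always is.

Proof. Let `B = A^d` and suppose that `p` is in the closure of `B^d` but not in `B^d`. There is an
open `U ∋ p` with `U ∩ B ⊆ {p}`, and a point `q ∈ U ∩ B^d`, `q ≠ p`. Every neighbourhood of `q`
inside `U` meets `B \ {q}`, hence contains `p`; so `p ∈ B` and every open set around `q` contains `p`.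
As `q ∉ B`, there is an open `V ∋ q` with `V ∩ A ⊆ {q}`, and `p ∈ V`. As `p ∈ B = A^d`, every
neighbourhood of `p` inside `V` meets `A`, hence contains `q`. So `p` and `q` are in the same open
sets, which contradicts the axiom `T₀`.
-/

set_option autoImplicit false

universe u

namespace Pool.Agent.Results.MP_091ced_gt.SecondDerivedClosed

/-- The derived set: the set of accumulation points of `A`. -/
def derived {X : Type u} [TopologicalSpace X] (A : Set X) : Set X :=
  {x | x ∈ closure (A \ {x})}

/-- In every `T₀`-space the second derived set of every subset is closed. -/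
theorem result (X : Type u) [TopologicalSpace X] [T0Space X] (A : Set X) :
    IsClosed (derived (derived A)) := by
  rw [← closure_subset_iff_isClosed]
  intro p hp
  by_contra hpd
  -- a neighbourhood of `p` which does not meet `A^d \ {p}`
  have h1 : p ∉ closure (derived A \ {p}) := hpd
  rw [mem_closure_iff] at h1
  push Not at h1
  obtain ⟨U, hU, hpU, hUe⟩ := h1
  have hUB : ∀ r, r ∈ U → r ∈ derived A → r = p := by
    intro r hr hrA
    by_contra hrp
    have : r ∈ U ∩ (derived A \ {p}) := ⟨hr, hrA, hrp⟩
    rw [hUe] at this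
    exact this
  obtain ⟨q, hqU, hqd⟩ := mem_closure_iff.1 hp U hU hpU
  have hqp : q ≠ p := by
    rintro rfl
    exact hpd hqd
  have hq2 : q ∈ closure (derived A \ {q}) := hqd
  -- every open set around `q` contains `p`, and `p ∈ A^d`
  have hqW : ∀ W, IsOpen W → q ∈ W → p ∈ W ∧ p ∈ derived A := by
    intro W hW hqW
    obtain ⟨r, ⟨hrW, hrU⟩, hrA, _⟩ := mem_closure_iff.1 hq2 (W ∩ U) (hW.inter hU) ⟨hqW, hqU⟩
    have := hUB r hrU hrA
    subst this
    exact ⟨hrW, hrA⟩
  have hpA : p ∈ derived A := (hqW U hU hqU).2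
  have hqA : q ∉ derived A := fun h => hqp (hUB q hqU h)
  have h2 : q ∉ closure (A \ {q}) := hqA
  rw [mem_closure_iff] at h2
  push Not at h2
  obtain ⟨V, hV, hqV, hVe⟩ := h2
  have hpV : p ∈ V := (hqW V hV hqV).1
  have hp2 : p ∈ closure (A \ {p}) := hpA
  have hpN : ∀ N, IsOpen N → p ∈ N → q ∈ N := by
    intro N hN hpN
    obtain ⟨a, ⟨haN, haV⟩, haA, _⟩ := mem_closure_iff.1 hp2 (N ∩ V) (hN.inter hV) ⟨hpN, hpV⟩
    have haq : a = q := by
      by_contra haq
      have : a ∈ V ∩ (A \ {q}) := ⟨haV, haA, haq⟩
      rw [hVe] at this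
      exact this
    rw [← haq]
    exact haN
  refine hqp (Inseparable.eq ?_)
  rw [inseparable_iff_forall_isOpen]
  intro s hs
  exact ⟨fun h => (hqW s hs h).1, fun h => hpN s hs h⟩

end Pool.Agent.Results.MP_091ced_gt.SecondDerivedClosed
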